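import Pool.Agent.H26.SL.A31168

set_option autoImplicit false

namespace Pool.Agent.Results.MP_a31168_co.Disproof

theorem result (n : ℕ) (hn : 4 ≤ n) :
    ∃ (P : Finset (EuclideanSpace ℝ (Fin 2))) (F : Finset (Finset (EuclideanSpace ℝ (Fin 2)))),
      P.card = n ∧
      (∀ a ∈ P, ∀ b ∈ P, ∀ c ∈ P, a ≠ b → a ≠ c → b ≠ c → ¬ Collinear ℝ {a, b, c}) ∧
      (∀ S ∈ F, S ⊆ P ∧ 1 < S.card ∧ S.card < n) ∧
      (∀ S ∈ F, ∀ T ∈ F, S ≠ T →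
        (convexHull ℝ (S : Set (EuclideanSpace ℝ (Fin 2))) ∩
          convexHull ℝ (T : Set (EuclideanSpace ℝ (Fin 2)))).Nonempty) ∧
      (∀ S ∈ F, ∀ T ∈ F, ∀ U ∈ F, S ≠ T → S ≠ U → T ≠ U →
        convexHull ℝ (S : Set (EuclideanSpace ℝ (Fin 2))) ∩
          convexHull ℝ (T : Set (EuclideanSpace ℝ (Fin 2))) ∩
          convexHull ℝ (U : Set (EuclideanSpace ℝ (Fin 2))) ⊆
            (P : Set (EuclideanSpace ℝ (Fin 2)))) ∧
      F.card = n + (n - 1) / 2 :=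
  Pool.Agent.H26.SL.A31168.main n hn

end Pool.Agent.Results.MP_a31168_co.Disproof
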